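import Pool.Agent.H30.NZ.Final

/-!
# MP_63054e_co, Q1: many highly neighborly centrally symmetric spheres

Vertex labels are integers, the vertex set is `{±1, …, ±n}` and the antipode of `v` is `-v`.

For every `k ≥ 2` and all large `n` there are at least `2 ^ n`, and in fact at least
`(n - 2 k - 4)! / (2 n) ^ (2 k)`, pairwise non-isomorphic centrally symmetric combinatorial
`(2 k - 1)`-spheres with `2 n` vertices which are cs-`k`-neighborly.
-/

namespace Pool.Agent.Results.MP_63054e_co.ManyNeighborlySpheres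

open Finset

/-- A finite abstract simplicial complex with integer vertex labels, given by the finite set of
its faces: the empty set is a face and subsets of faces are faces. -/
def IsComplex (D : Finset (Finset ℤ)) : Prop := ∅ ∈ D ∧ ∀ s ∈ D, ∀ t, t ⊆ s → t ∈ D

/-- The vertices of a complex. -/
def Verts (D : Finset (Finset ℤ)) : Set ℤ := {v | {v} ∈ D}

/-- Centrally symmetric complex with exactly the `2 n` vertices `±1, …, ±n`: the antipodal map
sends faces to faces and no face contains a vertex together with its antipode. -/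
def IsCS (n : ℕ) (D : Finset (Finset ℤ)) : Prop :=
  IsComplex D ∧ Verts D = {v : ℤ | v ≠ 0 ∧ |v| ≤ (n : ℤ)} ∧
    (∀ s ∈ D, s.image (fun v => -v) ∈ D) ∧ ∀ s ∈ D, ∀ v ∈ s, -v ∉ s

/-- Every set of `k` vertices which contains no antipodal pair is a face. -/
def CSNeighborly (k n : ℕ) (D : Finset (Finset ℤ)) : Prop :=
  ∀ s : Finset ℤ, (∀ v ∈ s, v ≠ 0 ∧ |v| ≤ (n : ℤ)) → (∀ v ∈ s, -v ∉ s) → s.card = k → s ∈ D

/-- The geometric realization in barycentric coordinates: the points of `ℤ → ℝ` with nonnegative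
coordinates whose support is contained in a face and whose coordinates have sum one. -/
def Realization (D : Finset (Finset ℤ)) : Set (ℤ → ℝ) :=
  {x | (∀ i, 0 ≤ x i) ∧ ∃ s ∈ D, (∀ i, i ∉ s → x i = 0) ∧ ∑ i ∈ s, x i = 1}

/-- `f` is piecewise linear on the polyhedron `X`: it is continuous on `X` and there are finitely
many affine maps such that at every point of `X` the value of `f` is the value of one of them. -/
def IsPL (f : (ℤ → ℝ) → (ℤ → ℝ)) (X : Set (ℤ → ℝ)) : Prop :=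
  ContinuousOn f X ∧
    ∃ S : Set ((ℤ → ℝ) →ᵃ[ℝ] (ℤ → ℝ)), S.Finite ∧ ∀ x ∈ X, ∃ A ∈ S, f x = A x

/-- `X` and `Y` are PL homeomorphic: there are piecewise linear maps `f : X → Y` and
`g : Y → X` which are inverse to each other. -/
def PLHomeomorphic (X Y : Set (ℤ → ℝ)) : Prop :=
  ∃ f g : (ℤ → ℝ) → (ℤ → ℝ), IsPL f X ∧ IsPL g Y ∧ Set.MapsTo f X Y ∧ Set.MapsTo g Y X ∧
    (∀ x ∈ X, g (f x) = x) ∧ ∀ y ∈ Y, f (g y) = y

/-- The boundary complex of the `(d + 1)`-simplex with vertices `0, …, d + 1`: all proper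
subsets of `{0, …, d + 1}`. -/
def simplexBoundary (d : ℕ) : Finset (Finset ℤ) :=
  (((Finset.range (d + 2)).image (fun i : ℕ => (i : ℤ))).powerset).erase
    ((Finset.range (d + 2)).image (fun i : ℕ => (i : ℤ)))

/-- Combinatorial `d`-spheres: complexes PL homeomorphic to the boundary of the
`(d + 1)`-simplex. -/
def IsCombSphere (d : ℕ) (D : Finset (Finset ℤ)) : Prop :=
  PLHomeomorphic (Realization D) (Realization (simplexBoundary d))

/-- Isomorphism of complexes: a bijection of the vertex sets which maps faces exactly onto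
faces. -/
def Isom (D D' : Finset (Finset ℤ)) : Prop :=
  ∃ φ : ℤ → ℤ, Set.BijOn φ (Verts D) (Verts D') ∧
    (∀ s ∈ D, s.image φ ∈ D') ∧ ∀ t ∈ D', ∃ s ∈ D, s.image φ = t

/-- **Main theorem** (full answer to Q1, which asks for at least `c * 2 ^ n` for `k ≥ 3`). -/
theorem result : ∀ k : ℕ, 2 ≤ k → ∃ n₀ : ℕ, ∀ n ≥ n₀, ∃ 𝓕 : Finset (Finset (Finset ℤ)),
    2 ^ n ≤ 𝓕.card ∧ (n - 2 * k - 4).factorial ≤ (2 * n) ^ (2 * k) * 𝓕.card ∧
    (∀ D ∈ 𝓕, IsCS n D ∧ IsCombSphere (2 * k - 1) D ∧ CSNeighborly k n D) ∧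
    ∀ D ∈ 𝓕, ∀ D' ∈ 𝓕, D ≠ D' → ¬ Isom D D' := by
  intro k hk
  obtain ⟨n₀, h⟩ := Pool.Agent.H30.NZ.main k hk
  refine ⟨n₀, fun n hn => ?_⟩
  obtain ⟨𝓕, h1, h2, h3, h4⟩ := h n hn
  refine ⟨𝓕, h2, h1, ?_, ?_⟩
  · intro D hD
    obtain ⟨a, ⟨f, g, hb⟩, c⟩ := h3 D hD
    exact ⟨a, ⟨f, g, hb.pf, hb.pg, hb.mf, hb.mg, hb.gf, hb.fg⟩, c⟩
  · intro D hD D' hD' hne hiso
    exact hne (h4 D hD D' hD' hiso)

end Pool.Agent.Results.MP_63054e_co.ManyNeighborlySpheres
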